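import Pool.Agent.helper80.RSV.Base

/-!
# Residually small varieties: `K' ∩ Z(K) = 1`
-/

set_option autoImplicit false

namespace Pool.Agent.helper80.RSV

open Function

/-- an element of the commutator subgroup is a product of commutators -/
theorem exists_list_comm {H : Type*} [Group H] {a : H} (ha : a ∈ commutator H) :
    ∃ l : List (H × H), a = (l.map fun p => p.1 * p.2 * p.1⁻¹ * p.2⁻¹).prod := by
  rw [commutator_eq_closure] at ha
  induction ha using Subgroup.closure_induction with
  | mem x hx =>
    obtain ⟨b, c, rfl⟩ := hx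
    exact ⟨[(b, c)], by simp [commutatorElement_def]⟩
  | one => exact ⟨[], by simp⟩
  | mul x y _ _ hx hy =>
    obtain ⟨l, hl⟩ := hx
    obtain ⟨l', hl'⟩ := hy
    exact ⟨l ++ l', by simp [hl, hl']⟩
  | inv x _ hx =>
    obtain ⟨l, hl⟩ := hx
    refine ⟨(l.map fun p => (p.2, p.1)).reverse, ?_⟩
    rw [hl, List.prod_inv_reverse]
    congr 1
    rw [List.map_reverse, List.map_map, List.map_map]
    congr 1
    apply List.map_congr_left
    intro p _
    simp only [comp_apply]
    group

open Classical in
/-- the embedding at coordinate `i` -/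
noncomputable def sg {I H : Type} [Group H] (i : I) : H →* (I → H) :=
  MonoidHom.mk' (fun h j => if j = i then h else 1) (by
    intro a b
    funext j
    simp only [Pi.mul_apply]
    split_ifs <;> simp)

open Classical in
theorem sg_apply {I H : Type} [Group H] (i : I) (h : H) (j : I) :
    sg i h j = if j = i then h else 1 := rfl

theorem sg_comm {I H : Type} [Group H] {i j : I} (hij : i ≠ j) (b c : H) :
    sg i b * sg j c = sg j c * sg i b := by
  funext k
  simp only [Pi.mul_apply, sg_apply]
  by_cases h : k = i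
  · have : k ≠ j := fun h' => hij (h.symm.trans h')
    simp [this]
  · simp [h]

theorem sg_central {I H : Type} [Group H] {a : H} (hc : ∀ k : H, k * a = a * k) (i : I)
    (f : I → H) : f * sg i a = sg i a * f := by
  funext j
  simp only [Pi.mul_apply, sg_apply]
  split_ifs
  · exact hc _
  · simp

theorem comm_inv {G : Type*} [Group G] {g x : G} (h : g * x = x * g) : g * x⁻¹ = x⁻¹ * g := by
  rw [eq_inv_mul_iff_mul_eq, ← mul_assoc, ← h, mul_inv_cancel_right]

theorem exists_N₀ (I : Type) {H : Type} [Group H] {a : H} (hne : a ≠ 1)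
    (hc : ∀ k : H, k * a = a * k) : ∃ N₀ : Subgroup (I → H), N₀.Normal ∧
      (∀ i j : I, sg i a * (sg j a)⁻¹ ∈ N₀) ∧ ∀ i : I, sg i a ∉ N₀ := by
  classical
  refine ⟨Subgroup.closure {f | ∃ i j : I, f = sg i a * (sg j a)⁻¹}, ?_, ?_, ?_⟩
  · have hN₀c : ∀ f ∈ Subgroup.closure {f | ∃ i j : I, f = sg i a * (sg j a)⁻¹}, ∀ g : I → H,
        g * f = f * g := by
      intro f hf
      induction hf using Subgroup.closure_induction with
      | mem x hx =>
        obtain ⟨i, j, rfl⟩ := hx
        intro g
        have h1 := sg_central hc i g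
        have h3 := comm_inv (sg_central hc j g)
        rw [← mul_assoc, h1, mul_assoc, h3, mul_assoc]
      | one => intro g; rw [mul_one, one_mul]
      | mul x y _ _ hx hy => intro g; rw [← mul_assoc, hx g, mul_assoc, hy g, mul_assoc]
      | inv x _ hx => intro g; exact comm_inv (hx g)
    refine ⟨fun f hf g => ?_⟩
    rw [hN₀c f hf g, mul_inv_cancel_right]
    exact hf
  · intro i j
    exact Subgroup.subset_closure ⟨i, j, rfl⟩
  · have hN₀z : ∀ f ∈ Subgroup.closure {f | ∃ i j : I, f = sg i a * (sg j a)⁻¹},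
        ∃ z : I →₀ ℤ, z.sum (fun _ n => n) = 0 ∧ ∀ i, f i = a ^ z i := by
      intro f hf
      induction hf using Subgroup.closure_induction with
      | mem x hx =>
        obtain ⟨i, j, rfl⟩ := hx
        refine ⟨Finsupp.single i 1 - Finsupp.single j 1, ?_, ?_⟩
        · rw [Finsupp.sum_sub_index (by intros; rfl)]
          simp
        · intro k
          simp only [Pi.mul_apply, Pi.inv_apply, sg_apply, Finsupp.coe_sub, Pi.sub_apply,
            Finsupp.single_apply, zpow_sub]
          congr 1
          · by_cases h : k = i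
            · simp [h]
            · simp [h, Ne.symm h]
          · by_cases h : k = j
            · simp [h]
            · simp [h, Ne.symm h]
      | one => exact ⟨0, by simp, by simp⟩
      | mul x y _ _ hx hy =>
        obtain ⟨z, hz, hx⟩ := hx
        obtain ⟨z', hz', hy⟩ := hy
        refine ⟨z + z', ?_, ?_⟩
        · rw [Finsupp.sum_add_index' (by intros; rfl) (by intros; rfl), hz, hz', add_zero]
        · intro k
          simp [hx, hy, zpow_add]
      | inv x _ hx =>
        obtain ⟨z, hz, hx⟩ := hx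
        refine ⟨-z, ?_, ?_⟩
        · rw [Finsupp.sum_neg_index (by intros; rfl)]
          simp only [Finsupp.sum] at hz ⊢
          rw [Finset.sum_neg_distrib, hz, neg_zero]
        · intro k
          simp [hx]
    intro i₀ h
    obtain ⟨z, hz, hf⟩ := hN₀z _ h
    let D : AddSubgroup ℤ :=
      { carrier := {n | a ^ n = 1}
        zero_mem' := by simp
        add_mem' := by
          intro x y hx hy
          simp only [Set.mem_ofPred_eq] at hx hy ⊢
          rw [zpow_add, hx, hy, one_mul]
        neg_mem' := by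
          intro x hx
          simp only [Set.mem_ofPred_eq] at hx ⊢
          rw [zpow_neg, hx, inv_one] }
    have h1 : ∀ i, i ≠ i₀ → z i ∈ D := by
      intro i hi
      have := hf i
      rw [sg_apply, if_neg hi] at this
      exact this.symm
    have h2 : z i₀ ∈ D := by
      by_cases h0 : i₀ ∈ z.support
      · have h3 : z i₀ + ∑ i ∈ z.support.erase i₀, z i = 0 := by
          rw [Finset.add_sum_erase _ _ h0]
          exact hz
        have h4 : ∑ i ∈ z.support.erase i₀, z i ∈ D :=
          D.sum_mem fun i hi => h1 i (Finset.ne_of_mem_erase hi)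
        have h5 : z i₀ = - ∑ i ∈ z.support.erase i₀, z i := by linarith
        rw [h5]
        exact D.neg_mem h4
      · rw [Finsupp.notMem_support_iff] at h0
        rw [h0]
        exact D.zero_mem
    have h3 := hf i₀
    rw [sg_apply, if_pos rfl] at h3
    exact hne (h3.trans h2)

theorem central_comm_eq_one {W : Set (FreeGroup ℕ)} (hR : ResSmall W) {H : Type} [Group H]
    (hH : Sat W H) {a : H} (ha : a ∈ commutator H) (hc : ∀ k : H, k * a = a * k) : a = 1 := by
  classical
  by_contra hne
  obtain ⟨κ, hκ⟩ := hR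
  obtain ⟨l, hl⟩ := exists_list_comm ha
  obtain ⟨T, rfl⟩ : ∃ T : Type, Cardinal.mk T = κ := ⟨κ.out, Cardinal.mk_out κ⟩
  obtain ⟨I, hI⟩ : ∃ I : Type, I = Set (Fin l.length → T) := ⟨_, rfl⟩
  obtain ⟨N₀, hN₀, hN1, hN2⟩ := exists_N₀ I hne hc
  have i₀ : I := hI ▸ (∅ : Set (Fin l.length → T))
  obtain ⟨N, hN, hN0, haN, hmax⟩ := exists_max_avoid hN₀ (hN2 i₀)
  have := hN
  have hSI : SubdirIrr ((I → H) ⧸ N) := subdirIrr_quotient haN hmax
  have hSat : Sat W ((I → H) ⧸ N) := (Sat.pi fun _ => hH).quotient N
  have hcard := hκ ((I → H) ⧸ N) hSat hSI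
  obtain ⟨e⟩ := (Cardinal.le_def _ _).mp hcard.le
  let Φ : I → (Fin l.length → T) := fun i k => e ((sg i (l.get k).1 : I → H) : (I → H) ⧸ N)
  have hΦ : ¬ Injective Φ := by
    intro h
    clear_value Φ
    subst hI
    exact cantor_injective Φ h
  obtain ⟨i, j, hij, hne'⟩ : ∃ i j, Φ i = Φ j ∧ i ≠ j := by
    simpa [Injective, not_forall] using hΦ
  have hk : ∀ p ∈ l, ((sg i p.1 : I → H) : (I → H) ⧸ N) = ((sg j p.1 : I → H) : (I → H) ⧸ N) := by
    intro p hp
    obtain ⟨k, rfl⟩ := List.get_of_mem hp
    exact e.injective (congrFun hij k)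
  have h1 : ((sg i a : I → H) : (I → H) ⧸ N) = 1 := by
    let τ : H →* (I → H) ⧸ N := (QuotientGroup.mk' N).comp (sg i)
    have h2 : τ a = (l.map fun p => τ (p.1 * p.2 * p.1⁻¹ * p.2⁻¹)).prod := by
      conv_lhs => rw [hl]
      rw [map_list_prod, List.map_map]
      rfl
    have h3 : ∀ p ∈ l, τ (p.1 * p.2 * p.1⁻¹ * p.2⁻¹) = 1 := by
      intro p hp
      have h4 : τ p.1 = QuotientGroup.mk' N (sg j p.1) := hk p hp
      rw [map_mul, map_mul, map_mul, map_inv, map_inv, h4]
      have h5 : τ p.2 = QuotientGroup.mk' N (sg i p.2) := rfl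
      rw [h5, ← map_mul, sg_comm (Ne.symm hne'), map_mul]
      group
    have h4 : τ a = 1 := by
      rw [h2]
      apply List.prod_eq_one
      intro x hx
      obtain ⟨p, hp, rfl⟩ := List.mem_map.mp hx
      exact h3 p hp
    exact h4
  apply haN
  have h2 : sg i a ∈ N := (QuotientGroup.eq_one_iff _).mp h1
  have h3 : sg i₀ a * (sg i a)⁻¹ ∈ N := hN0 (hN1 i₀ i)
  have h4 := N.mul_mem h3 h2
  rwa [inv_mul_cancel_right] at h4

/-- in a residually small variety `K' ∩ Z(K) = 1` for all groups `K` -/
theorem zp_of_rs {W : Set (FreeGroup ℕ)} (hR : ResSmall W) {G : Type} [Group G] (hG : Sat W G) :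
    ZP G := by
  intro K x hx hc
  rw [← Subgroup.map_subtype_commutator] at hx
  obtain ⟨y, hy, rfl⟩ := hx
  have h := central_comm_eq_one hR (hG.subgroup K) hy (by
    intro k
    apply Subtype.ext
    exact hc k k.2)
  rw [h]
  rfl

end Pool.Agent.helper80.RSV
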