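import Pool.Agent.helper80.RSV.Base
import Pool.Agent.helper70.RsvB1

/-!
# Residually small varieties: uniform exponent for the action on abelian normal subgroups
-/

set_option autoImplicit false
set_option linter.unusedSectionVars false

namespace Pool.Agent.helper80.RSV

open Function Polynomial

open scoped IsMulCommutative commutatorElement

section Conj

variable {G : Type} [Group G] (M : Subgroup G) [M.Normal] [IsMulCommutative M]

/-- the element of `G` given by an element of the additive group of `M` -/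
def va {M : Subgroup G} (v : Additive M) : G := ((Additive.toMul v : M) : G)

/-- conjugation -/
noncomputable def cj : G →* Module.End ℤ (Additive M) where
  toFun t := ((MulAut.conjNormal t : M ≃* M).toMonoidHom.toAdditive).toIntLinearMap
  map_one' := by
    ext v
    simp
  map_mul' s t := by
    ext v
    simp [mul_assoc]

variable {M}

theorem va_mem (v : Additive M) : va v ∈ M := (Additive.toMul v).2

theorem va_inj {v w : Additive M} (h : va v = va w) : v = w := by
  apply Additive.toMul.injective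
  exact Subtype.ext h

theorem va_ofMul (m : M) : va (Additive.ofMul m) = m := rfl

theorem va_add (v w : Additive M) : va (v + w) = va v * va w := rfl

theorem va_neg (v : Additive M) : va (-v) = (va v)⁻¹ := rfl

theorem va_sub (v w : Additive M) : va (v - w) = va v * (va w)⁻¹ := by
  rw [sub_eq_add_neg, va_add, va_neg]

theorem va_zero : va (0 : Additive M) = 1 := rfl

theorem va_nsmul (n : ℕ) (v : Additive M) : va (n • v) = va v ^ n := rfl

theorem va_cj (t : G) (v : Additive M) : va (cj M t v) = t * va v * t⁻¹ := rfl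

theorem cj_of_mem {t : G} (ht : t ∈ M) : cj M t = 1 := by
  apply LinearMap.ext
  intro v
  apply va_inj
  rw [va_cj]
  have h : t * va v = va v * t := by
    have := mul_comm (⟨t, ht⟩ : M) (Additive.toMul v)
    exact congrArg Subtype.val this
  rw [h, mul_inv_cancel_right]
  rfl

end Conj

section Gen

variable {G : Type} [Group G] {M : Subgroup G} [M.Normal] [IsMulCommutative M]

theorem cj_comm {x y : G} (hgen : ∀ K : Subgroup G, x ∈ K → y ∈ K → K = ⊤) (hx : x ∈ M) (g : G) :
    Commute (cj M g) (cj M y) := by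
  let K : Subgroup G :=
    { carrier := {g | Commute (cj M g) (cj M y)}
      one_mem' := by
        change Commute (cj M 1) (cj M y)
        rw [map_one]
        exact Commute.one_left _
      mul_mem' := by
        intro a b ha hb
        change Commute (cj M (a * b)) (cj M y)
        rw [map_mul]
        exact Commute.mul_left ha hb
      inv_mem' := by
        intro a ha
        change cj M a⁻¹ * cj M y = cj M y * cj M a⁻¹
        have ha' : cj M a * cj M y = cj M y * cj M a := ha
        have h1 : cj M a⁻¹ * cj M a = 1 := by rw [← map_mul, inv_mul_cancel, map_one]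
        have h2 : cj M a * cj M a⁻¹ = 1 := by rw [← map_mul, mul_inv_cancel, map_one]
        calc cj M a⁻¹ * cj M y = cj M a⁻¹ * cj M y * (cj M a * cj M a⁻¹) := by rw [h2, mul_one]
          _ = cj M a⁻¹ * (cj M y * cj M a) * cj M a⁻¹ := by noncomm_ring
          _ = (cj M a⁻¹ * cj M a) * cj M y * cj M a⁻¹ := by rw [← ha']; noncomm_ring
          _ = cj M y * cj M a⁻¹ := by rw [h1, one_mul] }
  have hK : K = ⊤ := by
    apply hgen
    · change Commute (cj M x) (cj M y)
      rw [cj_of_mem hx]
      exact Commute.one_left _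
    · exact Commute.refl _
  have : g ∈ K := by rw [hK]; trivial
  exact this

theorem exists_pow_cj {x y : G} (hgen : ∀ K : Subgroup G, x ∈ K → y ∈ K → K = ⊤) (hx : x ∈ M)
    (g : G) : ∃ a b : ℕ, cj M y ^ a * cj M g = cj M y ^ b := by
  have hc := cj_comm (M := M) hgen hx
  let K : Subgroup G :=
    { carrier := {g | ∃ a b : ℕ, cj M y ^ a * cj M g = cj M y ^ b}
      one_mem' := ⟨0, 0, by simp⟩
      mul_mem' := by
        rintro g h ⟨a, b, h1⟩ ⟨c, d, h2⟩
        refine ⟨a + c, b + d, ?_⟩
        rw [map_mul, pow_add, pow_add, ← h1, ← h2]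
        have h3 : cj M y ^ c * cj M g = cj M g * cj M y ^ c := ((hc g).pow_right c).eq.symm
        calc cj M y ^ a * cj M y ^ c * (cj M g * cj M h)
            = cj M y ^ a * (cj M y ^ c * cj M g) * cj M h := by noncomm_ring
          _ = cj M y ^ a * cj M g * (cj M y ^ c * cj M h) := by rw [h3]; noncomm_ring
      inv_mem' := by
        rintro g ⟨a, b, h1⟩
        refine ⟨b, a, ?_⟩
        rw [← h1, mul_assoc, ← map_mul, mul_inv_cancel, map_one, mul_one] }
  have hK : K = ⊤ := by
    apply hgen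
    · exact ⟨0, 0, by rw [cj_of_mem hx]; simp⟩
    · exact ⟨0, 1, by simp⟩
  have : g ∈ K := by rw [hK]; trivial
  exact this

theorem exists_poly {x y : G} (hgen : ∀ K : Subgroup G, x ∈ K → y ∈ K → K = ⊤)
    (hM : M = Subgroup.normalClosure {x}) (v₀ : Additive M) (hv₀ : va v₀ = x) (v : Additive M) :
    ∃ (k : ℕ) (R : ℤ[X]), (cj M y ^ k) v = aeval (cj M y) R v₀ := by
  have hx : x ∈ M := hv₀ ▸ va_mem v₀
  have key : ∀ g ∈ Subgroup.normalClosure {x}, ∃ w : Additive M, va w = g ∧
      ∃ (k : ℕ) (R : ℤ[X]), (cj M y ^ k) w = aeval (cj M y) R v₀ := by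
    intro g hg
    unfold Subgroup.normalClosure at hg
    induction hg using Subgroup.closure_induction with
    | mem z hz =>
      obtain ⟨z', hz', hz2⟩ := Group.mem_conjugatesOfSet_iff.mp hz
      rw [Set.mem_singleton_iff] at hz'
      rw [hz', isConj_iff] at hz2
      obtain ⟨c, hc⟩ := hz2
      obtain ⟨a, b, hab⟩ := exists_pow_cj (M := M) hgen hx c
      refine ⟨cj M c v₀, by rw [va_cj, hv₀, hc], a, X ^ b, ?_⟩
      rw [← Module.End.mul_apply, hab]
      simp
    | one => exact ⟨0, va_zero, 0, 0, by simp⟩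
    | mul g h _ _ hg hh =>
      obtain ⟨w, hw, k, R, h1⟩ := hg
      obtain ⟨w', hw', k', R', h2⟩ := hh
      refine ⟨w + w', by rw [va_add, hw, hw'], k + k', X ^ k' * R + X ^ k * R', ?_⟩
      rw [map_add, map_add, map_mul, map_mul, map_pow, map_pow, aeval_X, LinearMap.add_apply,
        Module.End.mul_apply, Module.End.mul_apply, ← h1, ← h2, ← Module.End.mul_apply,
        ← Module.End.mul_apply, ← pow_add, ← pow_add, add_comm k' k]
    | inv g _ hg =>
      obtain ⟨w, hw, k, R, h1⟩ := hg
      exact ⟨-w, by rw [va_neg, hw], k, -R, by rw [map_neg, h1, map_neg, LinearMap.neg_apply]⟩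
  obtain ⟨w, hw, h⟩ := key (va v) (hM ▸ va_mem v)
  rwa [va_inj hw] at h

theorem key_rel {x y : G} (hgen : ∀ K : Subgroup G, x ∈ K → y ∈ K → K = ⊤)
    (hZ : ∀ (L : Subgroup G) [L.Normal], ZP (G ⧸ L)) (v₀ : Additive M) (hv₀ : va v₀ = x) :
    ∃ v : Additive M, (cj M y - 1) v₀ = (cj M y - 1) ((cj M y - 1) v) := by
  have hx : x ∈ M := hv₀ ▸ va_mem v₀
  have hc := cj_comm (M := M) hgen hx
  let L : Subgroup G :=
    { carrier := {g | ∃ v : Additive M, va ((cj M y - 1) ((cj M y - 1) v)) = g}
      one_mem' := ⟨0, by rw [map_zero, map_zero, va_zero]⟩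
      mul_mem' := by
        rintro a b ⟨v, rfl⟩ ⟨w, rfl⟩
        exact ⟨v + w, by rw [map_add, map_add, va_add]⟩
      inv_mem' := by
        rintro a ⟨v, rfl⟩
        exact ⟨-v, by rw [map_neg, map_neg, va_neg]⟩ }
  have hL : L.Normal := by
    refine ⟨?_⟩
    rintro a ⟨v, rfl⟩ g
    refine ⟨cj M g v, ?_⟩
    have h1 : (cj M y - 1) * cj M g = cj M g * (cj M y - 1) :=
      ((hc g).sub_right (Commute.one_right _)).eq.symm
    rw [← Module.End.mul_apply _ (cj M g), h1, Module.End.mul_apply, ← Module.End.mul_apply, h1,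
      Module.End.mul_apply, va_cj]
  let c : G := va ((cj M y - 1) v₀)
  have hcL : ((c : G) : G ⧸ L) = 1 := by
    have h0 : c = y * x * y⁻¹ * x⁻¹ := by
      change va ((cj M y - 1) v₀) = _
      rw [LinearMap.sub_apply, va_sub, va_cj, Module.End.one_apply, hv₀]
    refine hZ L ⊤ _ ?_ ?_
    · rw [h0]
      have h1 : ((y * x * y⁻¹ * x⁻¹ : G) : G ⧸ L) = ⁅((y : G) : G ⧸ L), ((x : G) : G ⧸ L)⁆ := rfl
      rw [h1]
      exact Subgroup.commutator_mem_commutator trivial trivial
    · intro k _
      obtain ⟨k, rfl⟩ := QuotientGroup.mk_surjective k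
      let K : Subgroup G := (Subgroup.centralizer {((c : G) : G ⧸ L)}).comap (QuotientGroup.mk' L)
      have hK : K = ⊤ := by
        apply hgen
        · change _ ∈ Subgroup.centralizer _
          rw [Subgroup.mem_centralizer_singleton_iff]
          change ((x * c : G) : G ⧸ L) = ((c * x : G) : G ⧸ L)
          have h1 : cj M x ((cj M y - 1) v₀) = (cj M y - 1) v₀ := by
            rw [cj_of_mem hx]
            rfl
          have h2 := congrArg va h1
          rw [va_cj] at h2
          have h3 : x * c = c * x := by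
            change x * va ((cj M y - 1) v₀) = va ((cj M y - 1) v₀) * x
            exact mul_inv_eq_iff_eq_mul.mp h2
          rw [h3]
        · change _ ∈ Subgroup.centralizer _
          rw [Subgroup.mem_centralizer_singleton_iff]
          change ((y * c : G) : G ⧸ L) = ((c * y : G) : G ⧸ L)
          rw [eq_comm, QuotientGroup.eq]
          have h1 : va ((cj M y - 1) ((cj M y - 1) v₀)) = y * c * y⁻¹ * c⁻¹ := by
            rw [LinearMap.sub_apply, va_sub, va_cj]
            rfl
          have h2 : y * c * y⁻¹ * c⁻¹ ∈ L := ⟨v₀, h1⟩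
          have h3 := hL.conj_mem _ h2 (c * y)⁻¹
          have h4 : (c * y)⁻¹ * (y * c * y⁻¹ * c⁻¹) * (c * y)⁻¹⁻¹ = (c * y)⁻¹ * (y * c) := by group
          rwa [h4] at h3
      have hk : k ∈ K := by rw [hK]; trivial
      exact Subgroup.mem_centralizer_singleton_iff.mp hk
  obtain ⟨v, hv⟩ : c ∈ L := (QuotientGroup.eq_one_iff c).mp hcL
  exact ⟨v, va_inj hv.symm⟩

theorem exists_Q {x y : G} (hgen : ∀ K : Subgroup G, x ∈ K → y ∈ K → K = ⊤)
    (hM : M = Subgroup.normalClosure {x})
    (hZ : ∀ (L : Subgroup G) [L.Normal], ZP (G ⧸ L)) (v₀ : Additive M) (hv₀ : va v₀ = x) :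
    ∃ Q : ℤ[X], Q.eval 1 = 1 ∧ aeval (cj M y) ((X - 1) * Q) v₀ = 0 := by
  obtain ⟨v, hv⟩ := key_rel hgen hZ v₀ hv₀
  obtain ⟨k, R, hR⟩ := exists_poly hgen hM v₀ hv₀ v
  refine ⟨X ^ k - (X - 1) * R, by simp, ?_⟩
  have e : (X - 1) * (X ^ k - (X - 1) * R) = (X ^ k * (X - 1) - (X - 1) * (X - 1) * R : ℤ[X]) := by
    ring
  have e1 : aeval (cj M y) (X - 1 : ℤ[X]) = cj M y - 1 := by simp
  rw [e, map_sub, map_mul, map_mul, map_mul, map_pow, aeval_X, e1, LinearMap.sub_apply,
    Module.End.mul_apply, Module.End.mul_apply, Module.End.mul_apply, hv, ← hR]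
  have h1 : Commute (cj M y ^ k) (cj M y - 1) :=
    (Commute.refl (cj M y)).pow_left k |>.sub_right (Commute.one_right _)
  have h2 : (cj M y ^ k) ((cj M y - 1) ((cj M y - 1) v))
      = (cj M y - 1) ((cj M y - 1) ((cj M y ^ k) v)) := by
    rw [← Module.End.mul_apply, h1.eq, Module.End.mul_apply, ← Module.End.mul_apply (cj M y ^ k),
      h1.eq, Module.End.mul_apply]
  rw [h2, sub_self]

end Gen

theorem aeval_transfer {V V' : Type} [AddCommGroup V] [AddCommGroup V'] (φ : Module.End ℤ V)
    (φ' : Module.End ℤ V') (g : V →+ V') (hg : ∀ v, g (φ v) = φ' (g v)) (P : ℤ[X]) (v : V) :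
    g (aeval φ P v) = aeval φ' P (g v) := by
  have hpow : ∀ (n : ℕ) (v : V), g ((φ ^ n) v) = (φ' ^ n) (g v) := by
    intro n
    induction n with
    | zero => intro v; simp
    | succ n ih => intro v; rw [pow_succ, pow_succ, Module.End.mul_apply, Module.End.mul_apply, ih, hg]
  induction P using Polynomial.induction_on' with
  | add p q hp hq => rw [map_add, map_add, LinearMap.add_apply, LinearMap.add_apply, map_add, hp, hq]
  | monomial n a =>
    rw [aeval_monomial, aeval_monomial]
    simp only [algebraMap_int_eq, eq_intCast, Module.End.mul_apply, Module.End.intCast_apply,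
      map_zsmul, hpow]

/-- the generic quotient of the free group -/
theorem exists_generic {W : Set (FreeGroup ℕ)} : ∃ (Γ : Type) (_ : Group Γ) (x y : Γ), Sat W Γ ∧
    (∀ K : Subgroup Γ, x ∈ K → y ∈ K → K = ⊤) ∧
    AbSub (Subgroup.normalClosure {x}) ∧
    ∀ (G : Type) [Group G], Sat W G → ∀ M : Subgroup G, M.Normal → AbSub M → ∀ t : G, ∀ m ∈ M,
      ∃ f : Γ →* G, f x = m ∧ f y = t := by
  classical
  let x : FreeGroup Bool := FreeGroup.of true
  let y : FreeGroup Bool := FreeGroup.of false
  let X : Subgroup (FreeGroup Bool) := Subgroup.normalClosure {x}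
  let P : Subgroup (FreeGroup Bool) → Prop := fun N => ∃ hN : N.Normal, Sat W (FreeGroup Bool ⧸ N) ∧
    ∀ a ∈ X, ∀ b ∈ X, a * b * a⁻¹ * b⁻¹ ∈ N
  let Nu : Subgroup (FreeGroup Bool) := ⨅ i : {N // P N}, i.1
  have hmem : ∀ z, z ∈ Nu ↔ ∀ N, P N → z ∈ N := by
    intro z
    simp only [Nu, Subgroup.mem_iInf, Subtype.forall]
  have hNu : Nu.Normal := by
    refine ⟨fun a ha g => ?_⟩
    rw [hmem] at ha ⊢
    intro N hN
    obtain ⟨hN', _⟩ := id hN
    exact hN'.conj_mem a (ha N hN) g
  have hSat : Sat W (FreeGroup Bool ⧸ Nu) :=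
    Sat.quotient_iInf (ι := {N // P N}) (N := fun i => i.1) (fun i => i.2.1)
      (fun z hz => (hmem z).mpr fun N hN => hz ⟨N, hN⟩) (fun i => i.2.2.1)
  refine ⟨FreeGroup Bool ⧸ Nu, inferInstance, (x : FreeGroup Bool ⧸ Nu), (y : FreeGroup Bool ⧸ Nu), hSat, ?_, ?_, ?_⟩
  · intro K hx hy
    have h1 : K.comap (QuotientGroup.mk' Nu) = ⊤ := by
      rw [eq_top_iff, ← FreeGroup.closure_range_of, Subgroup.closure_le]
      rintro _ ⟨b, rfl⟩
      cases b
      · exact hy
      · exact hx
    rw [eq_top_iff]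
    intro z _
    obtain ⟨z, rfl⟩ := QuotientGroup.mk_surjective z
    have : z ∈ K.comap (QuotientGroup.mk' Nu) := by rw [h1]; trivial
    exact this
  · have h1 : Subgroup.normalClosure {(x : FreeGroup Bool ⧸ Nu)} = X.map (QuotientGroup.mk' Nu) := by
      rw [Subgroup.map_normalClosure _ _ (QuotientGroup.mk'_surjective Nu), Set.image_singleton]
      rfl
    rw [h1]
    rintro _ ⟨a, ha, rfl⟩ _ ⟨b, hb, rfl⟩
    rw [← map_mul, ← map_mul]
    change ((a * b : FreeGroup Bool) : FreeGroup Bool ⧸ Nu) = ((b * a : FreeGroup Bool) : FreeGroup Bool ⧸ Nu)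
    rw [eq_comm, QuotientGroup.eq]
    have h2 : a * b * a⁻¹ * b⁻¹ ∈ Nu := (hmem _).mpr fun N hN => by
      obtain ⟨_, _, h⟩ := hN
      exact h a ha b hb
    have h3 := hNu.conj_mem _ h2 (b * a)⁻¹
    have h4 : (b * a)⁻¹ * (a * b * a⁻¹ * b⁻¹) * (b * a)⁻¹⁻¹ = (b * a)⁻¹ * (a * b) := by group
    rwa [h4] at h3
  · intro G _ hG M hM hMab t m hm
    let f : FreeGroup Bool →* G := FreeGroup.lift (fun b => if b then m else t)
    have hfx : f x = m := by simp [f, x]
    have hfy : f y = t := by simp [f, y]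
    have hX : X ≤ M.comap f := by
      apply Subgroup.normalClosure_le_normal
      intro z hz
      rw [Set.mem_singleton_iff] at hz
      subst hz
      change f x ∈ M
      rw [hfx]
      exact hm
    have hker : P f.ker := by
      refine ⟨inferInstance, ?_, ?_⟩
      · have h2 : Sat W f.range := hG.subgroup _
        exact h2.of_injective (QuotientGroup.quotientKerEquivRange f).toMonoidHom
          (QuotientGroup.quotientKerEquivRange f).injective
      · intro a ha b hb
        rw [MonoidHom.mem_ker]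
        simp only [map_mul, map_inv]
        rw [hMab _ (hX ha) _ (hX hb)]
        group
    have hle : ∀ z ∈ Nu, f z = 1 := fun z hz => MonoidHom.mem_ker.mp ((hmem z).mp hz _ hker)
    exact ⟨QuotientGroup.lift Nu f hle, hfx, hfy⟩

theorem exists_expP {W : Set (FreeGroup ℕ)} (hZ : ∀ (G : Type) [Group G], Sat W G → ZP G) :
    ∃ E : ℕ, 0 < E ∧ ∀ (G : Type) [Group G], Sat W G → ExpP E G := by
  obtain ⟨Γ, _, x, y, hΓ, hgen, hab, hlift⟩ := exists_generic (W := W)
  have hab' : IsMulCommutative (Subgroup.normalClosure {x}) :=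
    ⟨⟨fun a b => Subtype.ext (hab _ a.2 _ b.2)⟩⟩
  have hxM : x ∈ Subgroup.normalClosure {x} := Subgroup.subset_normalClosure (by simp)
  obtain ⟨Q, hQ, hQ0⟩ := exists_Q (M := Subgroup.normalClosure {x}) hgen rfl
    (fun L _ => hZ _ (hΓ.quotient L)) (Additive.ofMul ⟨x, hxM⟩) rfl
  obtain ⟨E, hE0, hE⟩ := exists_pow_one Q hQ
  refine ⟨E, hE0, ?_⟩
  intro G _ hG M hM hMab t m hm
  have hM' : IsMulCommutative M := ⟨⟨fun a b => Subtype.ext (hMab _ a.2 _ b.2)⟩⟩
  have key : ∀ (t : G), aeval (cj M t) ((X - 1) * Q) = 0 := by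
    intro t
    apply LinearMap.ext
    intro v
    obtain ⟨f, hfx, hfy⟩ := hlift G hG M hM hMab t (va v) (va_mem v)
    have hfM : ∀ z ∈ Subgroup.normalClosure {x}, f z ∈ M := by
      have : Subgroup.normalClosure {x} ≤ M.comap f := by
        apply Subgroup.normalClosure_le_normal
        intro z hz
        rw [Set.mem_singleton_iff] at hz
        subst hz
        change f z ∈ M
        rw [hfx]
        exact va_mem v
      exact this
    let g : Additive (Subgroup.normalClosure {x}) →+ Additive M :=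
      MonoidHom.toAdditive (MonoidHom.mk' (fun z => (⟨f z, hfM z z.2⟩ : M)) (by
        intro a b
        apply Subtype.ext
        simp))
    have hg : ∀ w, va (g w) = f (va w) := fun w => rfl
    have h1 := aeval_transfer (cj (Subgroup.normalClosure {x}) y) (cj M t) g (by
      intro w
      apply va_inj
      rw [hg, va_cj, va_cj, hg, map_mul, map_mul, map_inv, hfy]) ((X - 1) * Q)
      (Additive.ofMul ⟨x, hxM⟩)
    rw [hQ0, map_zero] at h1
    have h2 : g (Additive.ofMul ⟨x, hxM⟩) = v := by
      apply va_inj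
      rw [hg]
      exact hfx
    rw [h2] at h1
    exact h1.symm
  let φ : (Module.End ℤ (Additive M))ˣ :=
    ⟨cj M t, cj M t⁻¹, by rw [← map_mul, mul_inv_cancel, map_one],
      by rw [← map_mul, inv_mul_cancel, map_one]⟩
  obtain ⟨h1, h2⟩ := hE _ φ (by
    intro j _
    change aeval ((cj M t) ^ j) _ = 0
    rw [← map_pow]
    exact key _)
  have h1' : cj M (t ^ E) = 1 := by rw [map_pow]; exact h1
  have h3 := congrArg (fun F => va (F (Additive.ofMul ⟨m, hm⟩))) h1'
  have h4 := congrArg (fun F => va (F (Additive.ofMul ⟨m, hm⟩))) h2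
  constructor
  · have h5 : t ^ E * m * (t ^ E)⁻¹ = m := h3
    exact mul_inv_eq_iff_eq_mul.mp h5
  · have h6 : (t * m * t⁻¹ * m⁻¹) ^ E = 1 := by
      have h7 : va (((E : Module.End ℤ (Additive M)) * (cj M t - 1)) (Additive.ofMul ⟨m, hm⟩)) = 1 :=
        h4
      rw [Module.End.mul_apply, Module.End.natCast_apply, va_nsmul, LinearMap.sub_apply, va_sub,
        va_cj] at h7
      exact h7
    have h8 : (m * t * m⁻¹ * t⁻¹) = (t * m * t⁻¹ * m⁻¹)⁻¹ := by group
    rw [h8, inv_pow, h6, inv_one]

end Pool.Agent.helper80.RSV
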