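import Pool.Agent.helper80.RSV.Base
import Pool.Agent.helper3.RSV.GenDefs

/-!
# Residually small varieties: finite exponent
-/

set_option autoImplicit false

namespace Pool.Agent.helper80.RSV

open Function

/-- words in finitely many letters killed by all homomorphisms to `F` -/
theorem InVar.kill_of {F : Type} [Group F] {G : Type} [Group G]
    (hG : InVar F G) {α : Type} [Finite α] (g : FreeGroup α →* G)
    {w : FreeGroup α} (h1 : ∀ ψ : FreeGroup α →* F, ψ w = 1) : g w = 1 := by
  obtain ⟨n, ⟨e⟩⟩ := Finite.exists_equiv_fin α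
  let ε : α → ℕ := fun a => (e a : ℕ)
  have hε : Injective ε := fun a b h => e.injective (Fin.ext h)
  have hlaw : Law (FreeGroup.lift (fun a => FreeGroup.of (ε a)) w) F := by
    intro f
    rw [map_lift]
    simp only [FreeGroup.lift_apply_of]
    exact h1 _
  have h3 := hG _ hlaw (fun n => extend ε (fun a => g (FreeGroup.of a)) (fun _ => 1) n)
  rw [map_lift] at h3
  simp only [FreeGroup.lift_apply_of, hε.extend_apply] at h3
  have h4 : g = FreeGroup.lift (fun a => g (FreeGroup.of a)) := by
    ext a
    simp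
  rw [h4]
  exact h3

/-- finitely generated groups in the variety of a finite group are finite -/
theorem InVar.finite {F : Type} [Group F] [Finite F] {G : Type} [Group G] (hG : InVar F G)
    (hfg : Group.FG G) : Finite G := by
  obtain ⟨α, hα, g, hg⟩ := Group.fg_iff_exists_freeGroup_hom_surjective_finite.mp hfg
  let ρ : FreeGroup α →* ((FreeGroup α →* F) → F) :=
    MonoidHom.mk' (fun w ψ => ψ w) (by intro a b; funext ψ; exact map_mul ψ a b)
  have hfin : Finite (FreeGroup α →* F) := Finite.of_equiv (α → F) FreeGroup.lift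
  have hker : ρ.ker ≤ g.ker := by
    intro w hw
    rw [MonoidHom.mem_ker] at hw ⊢
    exact hG.kill_of g fun ψ => congrFun hw ψ
  have h1 : Finite (FreeGroup α ⧸ ρ.ker) :=
    Finite.of_injective _ (QuotientGroup.kerLift_injective ρ)
  have h2 : Surjective (QuotientGroup.lift ρ.ker g hker) := by
    intro x
    obtain ⟨w, rfl⟩ := hg x
    exact ⟨(w : FreeGroup α ⧸ ρ.ker), rfl⟩
  exact Finite.of_surjective _ h2

/-- a nontrivial finitely generated group has a simple quotient -/
theorem exists_simple_quotient {R : Type} [Group R] (hfg : Group.FG R) (hne : (⊤ : Subgroup R) ≠ ⊥) :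
    ∃ (N : Subgroup R) (_ : N.Normal), N ≠ ⊤ ∧ IsSimpleGroup (R ⧸ N) := by
  obtain ⟨S, hS⟩ := hfg.out
  have hz : ∀ c ⊆ {N : Subgroup R | N.Normal ∧ N ≠ ⊤}, IsChain (· ≤ ·) c → ∀ y ∈ c,
      ∃ ub ∈ {N : Subgroup R | N.Normal ∧ N ≠ ⊤}, ∀ z ∈ c, z ≤ ub := by
    intro c hc hchain y hy
    have hne : c.Nonempty := ⟨y, hy⟩
    have hdir : DirectedOn (· ≤ ·) c := hchain.directedOn
    refine ⟨sSup c, ⟨⟨fun x hx g => ?_⟩, fun htop => ?_⟩, fun z hz => le_sSup hz⟩
    · obtain ⟨K, hK, hxK⟩ := (Subgroup.mem_sSup_of_directedOn hne hdir).mp hx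
      exact (Subgroup.mem_sSup_of_directedOn hne hdir).mpr ⟨K, hK, (hc hK).1.conj_mem x hxK g⟩
    · have h1 : ∀ T : Finset R, ∃ K ∈ c, ∀ x ∈ T, x ∈ K := by
        classical
        intro T
        induction T using Finset.induction_on with
        | empty => exact ⟨y, hy, by simp⟩
        | insert a T _ ih =>
          obtain ⟨K, hK, hT⟩ := ih
          have ha : a ∈ sSup c := by rw [htop]; trivial
          obtain ⟨K', hK', haK'⟩ := (Subgroup.mem_sSup_of_directedOn hne hdir).mp ha
          obtain ⟨K'', hK'', h1, h2⟩ := hdir K hK K' hK'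
          refine ⟨K'', hK'', fun x hx => ?_⟩
          rcases Finset.mem_insert.mp hx with rfl | hx
          · exact h2 haK'
          · exact h1 (hT x hx)
      obtain ⟨K, hK, hSK⟩ := h1 S
      apply (hc hK).2
      rw [eq_top_iff, ← hS, Subgroup.closure_le]
      exact hSK
  obtain ⟨N, -, hN⟩ := zorn_le_nonempty₀ _ hz ⊥ ⟨inferInstance, hne.symm⟩
  have hN1 : N.Normal := hN.prop.1
  refine ⟨N, hN1, hN.prop.2, ?_⟩
  have hnt : Nontrivial (R ⧸ N) := by
    by_contra h
    rw [not_nontrivial_iff_subsingleton] at h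
    apply hN.prop.2
    rw [eq_top_iff]
    intro x _
    exact (QuotientGroup.eq_one_iff x).mp (Subsingleton.elim _ _)
  refine ⟨fun K hK => ?_⟩
  by_cases h : K.comap (QuotientGroup.mk' N) = ⊤
  · right
    rw [eq_top_iff]
    intro z _
    obtain ⟨z, rfl⟩ := QuotientGroup.mk_surjective z
    have : z ∈ K.comap (QuotientGroup.mk' N) := by rw [h]; trivial
    exact this
  · left
    have hle : N ≤ K.comap (QuotientGroup.mk' N) := by
      intro x hx
      rw [Subgroup.mem_comap]
      have : (QuotientGroup.mk' N) x = 1 := (QuotientGroup.eq_one_iff x).mpr hx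
      rw [this]; exact K.one_mem
    have h2 : K.comap (QuotientGroup.mk' N) ≤ N := hN.2 ⟨hK.comap _, h⟩ hle
    rw [eq_bot_iff]
    intro z hz
    obtain ⟨z, rfl⟩ := QuotientGroup.mk_surjective z
    have : z ∈ K.comap (QuotientGroup.mk' N) := hz
    exact Subgroup.mem_bot.mpr ((QuotientGroup.eq_one_iff z).mpr (h2 this))

theorem genFin_fg {W W₀ : Set (FreeGroup ℕ)} {F : Type} [Group F] [Finite F]
    (hW₀ : W₀ = {w | ∀ (G : Type) [Group G], Finite G → Sat W G → Law w G})
    (hF : ∀ (G : Type) [Group G], Finite G → Sat W G → InVar F G)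
    (hs : ∀ (G : Type) [Group G], Group.FG G → Sat W G → IsSimpleGroup G → Finite G)
    {T : Type} [Group T] (hfg : Group.FG T) (hT : Sat W T) : Sat W₀ T := by
  let R : Subgroup T := Subgroup.closure {x | ∃ u ∈ W₀, ∃ f : ℕ → T, x = FreeGroup.lift f u}
  have hRn : R.Normal := by
    refine ⟨fun x hx g => ?_⟩
    induction hx using Subgroup.closure_induction with
    | mem x hx =>
      obtain ⟨u, hu, f, rfl⟩ := hx
      apply Subgroup.subset_closure
      refine ⟨u, hu, fun n => g * f n * g⁻¹, ?_⟩
      exact map_lift (MulAut.conj g).toMonoidHom f u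
    | one => simp
    | mul x y _ _ hx hy =>
      have := R.mul_mem hx hy
      have e : g * x * g⁻¹ * (g * y * g⁻¹) = g * (x * y) * g⁻¹ := by group
      rwa [e] at this
    | inv x _ hx =>
      have := R.inv_mem hx
      have e : (g * x * g⁻¹)⁻¹ = g * x⁻¹ * g⁻¹ := by group
      rwa [e] at this
  have hquot : Sat W₀ (T ⧸ R) := by
    intro w hw f
    choose g hg using fun n => QuotientGroup.mk'_surjective R (f n)
    have h1 := map_lift (QuotientGroup.mk' R) g w
    simp only [hg] at h1
    rw [← h1]
    exact (QuotientGroup.eq_one_iff _).mpr (Subgroup.subset_closure ⟨w, hw, g, rfl⟩)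
  have hin : InVar F (T ⧸ R) := by
    intro w hw
    apply hquot
    rw [hW₀]
    intro G _ hG1 hG2
    exact hF G hG1 hG2 w hw
  have hfgq : Group.FG (T ⧸ R) := inferInstance
  have hfinq : Finite (T ⧸ R) := hin.finite hfgq
  have hRfi : R.FiniteIndex := Subgroup.finiteIndex_of_finite_quotient
  have hRfg : Group.FG R := inferInstance
  by_cases htop : (⊤ : Subgroup R) = ⊥
  · intro w hw f
    have h1 : FreeGroup.lift f w ∈ R := Subgroup.subset_closure ⟨w, hw, f, rfl⟩
    have h2 : (⟨_, h1⟩ : R) ∈ (⊤ : Subgroup R) := trivial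
    rw [htop, Subgroup.mem_bot] at h2
    exact congrArg Subtype.val h2
  · exfalso
    obtain ⟨R', hR', hne, hsimple⟩ := exists_simple_quotient hRfg htop
    have hfgR : Group.FG (R ⧸ R') := inferInstance
    have hfin' : Finite (R ⧸ R') := hs _ hfgR ((hT.subgroup R).quotient R') hsimple
    have hR'fi : R'.FiniteIndex := Subgroup.finiteIndex_of_finite_quotient
    have hmfi : (R'.map R.subtype).FiniteIndex := by
      refine ⟨?_⟩
      rw [Subgroup.index_map_subtype]
      exact mul_ne_zero hR'fi.index_ne_zero hRfi.index_ne_zero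
    have hK : Finite (T ⧸ (R'.map R.subtype).normalCore) := inferInstance
    have hKsat : Sat W (T ⧸ (R'.map R.subtype).normalCore) := hT.quotient _
    have hRK : R ≤ (R'.map R.subtype).normalCore := by
      rw [Subgroup.closure_le]
      rintro x ⟨u, hu, f, rfl⟩
      have h1 : Law u (T ⧸ (R'.map R.subtype).normalCore) := by
        rw [hW₀] at hu
        exact hu _ hK hKsat
      have h2 := h1 (fun n => QuotientGroup.mk' _ (f n))
      rw [← map_lift] at h2
      exact (QuotientGroup.eq_one_iff _).mp h2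
    apply hne
    rw [eq_top_iff]
    intro x _
    have h1 : (x : T) ∈ R'.map R.subtype := Subgroup.normalCore_le _ (hRK x.2)
    obtain ⟨y, hy, hyx⟩ := h1
    have : y = x := Subtype.ext hyx
    rwa [← this]

theorem genFin_of_exp {W : Set (FreeGroup ℕ)} {F : Type} [Group F] [Finite F]
    (hF : ∀ (G : Type) [Group G], Finite G → Sat W G → InVar F G)
    (hs : ∀ (G : Type) [Group G], Group.FG G → Sat W G → IsSimpleGroup G → Finite G) :
    GenFin W := by
  intro w hw G _ hG f
  obtain ⟨k, hk⟩ := exists_bound w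
  let f' : ℕ → G := fun n => if n < k then f n else 1
  rw [hk G f f' (fun n hn => by simp [f', hn])]
  have hfin : (Set.range f').Finite := by
    apply ((Set.finite_Iio k).image f |>.union (Set.finite_singleton (1 : G))).subset
    rintro _ ⟨n, rfl⟩
    by_cases h : n < k
    · left; exact ⟨n, h, by simp [f', h]⟩
    · right; simp [f', h]
  let T : Subgroup G := Subgroup.closure (Set.range f')
  have hT : Group.FG T := by
    rw [Group.fg_iff_subgroup_fg]
    exact ⟨hfin.toFinset, by simp [T]⟩
  let f'' : ℕ → T := fun n => ⟨f' n, Subgroup.subset_closure ⟨n, rfl⟩⟩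
  have h1 := genFin_fg rfl hF hs hT (hG.subgroup T) w hw f''
  have h2 := congrArg T.subtype h1
  rw [map_lift, map_one] at h2
  exact h2

end Pool.Agent.helper80.RSV
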