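import Pool.Agent.helper80.RSV.Base
import Pool.Agent.helper69.RSV.A1
import Pool.Agent.helper98.RsvE1

/-!
# Residually small varieties: `K' ∩ Z(K) = 1` in the variety generated by `F × ℤ`
-/

set_option autoImplicit false

namespace Pool.Agent.helper80.RSV

open Function

/-- all `p`-subgroups of a group with abelian Sylow subgroups are abelian -/
theorem AbSylow.abSub {G : Type*} [Group G] (h : AbSylow G) {p : ℕ} (hp : p.Prime)
    {P : Subgroup G} (hP : IsPGroup p P) : AbSub P := by
  obtain ⟨Q, hQ⟩ := hP.exists_le_sylow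
  exact fun x hx y hy => h p hp Q x (hQ hx) y (hQ hy)

/-- finite powers and their subgroups -/
theorem AbSylow.of_pi {F : Type*} [Group F] (h : AbSylow F) {ι G : Type*} [Group G]
    (ρ : G →* (ι → F)) (hρ : Injective ρ) : AbSylow G := by
  intro p hp P x hx y hy
  apply hρ
  funext i
  have h1 : IsPGroup p ((P : Subgroup G).map ((Pi.evalMonoidHom (fun _ : ι => F) i).comp ρ)) :=
    P.isPGroup'.map _
  have h2 := h.abSub hp h1 _ (Subgroup.mem_map_of_mem _ hx) _ (Subgroup.mem_map_of_mem _ hy)
  rw [map_mul, map_mul]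
  exact h2

/-- words killed by all homomorphisms to `F` and `ℤ` -/
theorem InVar.kill {F : Type} [Group F] {G : Type} [Group G]
    (hG : InVar (F × Multiplicative ℤ) G) {α : Type} [Finite α] (g : FreeGroup α →* G)
    {w : FreeGroup α} (h1 : ∀ ψ : FreeGroup α →* F, ψ w = 1)
    (h2 : w ∈ commutator (FreeGroup α)) : g w = 1 := by
  obtain ⟨n, ⟨e⟩⟩ := Finite.exists_equiv_fin α
  let ε : α → ℕ := fun a => (e a : ℕ)
  have hε : Injective ε := fun a b h => e.injective (Fin.ext h)
  have hlaw : Law (FreeGroup.lift (fun a => FreeGroup.of (ε a)) w) (F × Multiplicative ℤ) := by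
    intro f
    rw [map_lift]
    simp only [FreeGroup.lift_apply_of]
    set ψ : FreeGroup α →* F × Multiplicative ℤ := FreeGroup.lift (fun a => f (ε a)) with hψ
    refine Prod.ext ?_ ?_
    · exact h1 ((MonoidHom.fst _ _).comp ψ)
    · have h3 := Abelianization.commutator_subset_ker ((MonoidHom.snd _ _).comp ψ) h2
      exact MonoidHom.mem_ker.mp h3
  have h3 := hG _ hlaw (fun n => extend ε (fun a => g (FreeGroup.of a)) (fun _ => 1) n)
  rw [map_lift] at h3
  simp only [FreeGroup.lift_apply_of, hε.extend_apply] at h3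
  have h4 : g = FreeGroup.lift (fun a => g (FreeGroup.of a)) := by
    ext a
    simp
  rw [h4]
  exact h3

theorem InVar.subgroup {F : Type*} [Group F] {G : Type*} [Group G] (h : InVar F G)
    (K : Subgroup G) : InVar F K := fun w hw => (h w hw).subgroup K

theorem central_of_inVar {F : Type} [Group F] [Finite F] (hF : AbSylow F) {H : Type} [Group H]
    (hH : InVar (F × Multiplicative ℤ) H) {a : H} (ha : a ∈ commutator H)
    (hc : ∀ k : H, k * a = a * k) : a = 1 := by
  classical
  obtain ⟨l, hl⟩ := exists_list_comm ha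
  let α : Type := Fin l.length × Bool
  let g : FreeGroup α →* H := FreeGroup.lift fun p => if p.2 then (l.get p.1).1 else (l.get p.1).2
  obtain ⟨xt, hxt, hgx⟩ : ∃ xt : FreeGroup α, xt ∈ commutator (FreeGroup α) ∧ g xt = a := by
    have hg : ∀ p ∈ l, ∃ b c : FreeGroup α, g b = p.1 ∧ g c = p.2 := by
      intro p hp
      obtain ⟨k, rfl⟩ := List.get_of_mem hp
      exact ⟨FreeGroup.of (k, true), FreeGroup.of (k, false), by simp [g], by simp [g]⟩
    have key : ∀ l' : List (H × H), (∀ p ∈ l', p ∈ l) → ∃ xt : FreeGroup α,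
        xt ∈ commutator (FreeGroup α) ∧
        g xt = (l'.map fun p => p.1 * p.2 * p.1⁻¹ * p.2⁻¹).prod := by
      intro l'
      induction l' with
      | nil => intro _; exact ⟨1, one_mem _, by simp⟩
      | cons p l' ih =>
        intro h
        obtain ⟨y, hy, hy2⟩ := ih fun q hq => h q (List.mem_cons_of_mem _ hq)
        obtain ⟨b, c, hb, hc'⟩ := hg p (h p List.mem_cons_self)
        refine ⟨b * c * b⁻¹ * c⁻¹ * y, mul_mem ?_ hy, ?_⟩
        · exact Subgroup.commutator_mem_commutator trivial trivial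
        · rw [map_mul, hy2]
          simp [hb, hc', List.map_cons]
    obtain ⟨xt, h1, h2⟩ := key l fun p hp => hp
    exact ⟨xt, h1, by rw [h2, ← hl]⟩
  let ρ : FreeGroup α →* ((FreeGroup α →* F) → F) :=
    MonoidHom.mk' (fun w ψ => ψ w) (by intro a b; funext ψ; exact map_mul ψ a b)
  have hfin : Finite (FreeGroup α →* F) := Finite.of_equiv (α → F) FreeGroup.lift
  have hQ : AbSylow ρ.range := hF.of_pi ρ.range.subtype ρ.range.subtype_injective
  have hstar := star_of_abSylow hQ
  let π : FreeGroup α →* ρ.range := ρ.rangeRestrict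
  have hπ : Surjective π := ρ.rangeRestrict_surjective
  let L : Subgroup (FreeGroup α) := (Subgroup.zpowers a).comap g
  have hLc : ∀ u ∈ L, ∀ k : H, k * g u = g u * k := by
    intro u hu k
    obtain ⟨n, hn⟩ := Subgroup.mem_zpowers_iff.mp (Subgroup.mem_comap.mp hu)
    rw [← hn]
    have : Commute k a := hc k
    exact (this.zpow_right n).eq
  have h1 : π xt ∈ ⁅L.map π, (⊤ : Subgroup ρ.range)⁆ := by
    refine hstar ⊤ (L.map π) le_top ?_ _ ?_ ?_
    · rintro k _ _ ⟨u, hu, rfl⟩
      obtain ⟨k, rfl⟩ := hπ k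
      refine ⟨k * u * k⁻¹, ?_, by simp⟩
      change g (k * u * k⁻¹) ∈ Subgroup.zpowers a
      rw [map_mul, map_mul, hLc u hu, map_inv, mul_inv_cancel_right]
      exact hu
    · have h2 := Subgroup.mem_map_of_mem π hxt
      rw [commutator_def, Subgroup.map_commutator] at h2
      exact Subgroup.commutator_mono le_top le_top h2
    · refine Subgroup.mem_map_of_mem π ?_
      change g xt ∈ Subgroup.zpowers a
      rw [hgx]
      exact Subgroup.mem_zpowers a
  have htop : (⊤ : Subgroup ρ.range) = (⊤ : Subgroup (FreeGroup α)).map π := by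
    rw [Subgroup.map_top_of_surjective π hπ]
  rw [htop, ← Subgroup.map_commutator] at h1
  obtain ⟨r, hr, hrx⟩ := h1
  have hr1 : g r = 1 := by
    have : ⁅L, (⊤ : Subgroup (FreeGroup α))⁆ ≤ g.ker := by
      rw [Subgroup.commutator_le]
      intro u hu k _
      rw [MonoidHom.mem_ker, commutatorElement_def]
      simp only [map_mul, map_inv]
      rw [← hLc u hu]
      group
    exact MonoidHom.mem_ker.mp (this hr)
  have hr2 : r ∈ commutator (FreeGroup α) :=
    Subgroup.commutator_mono le_top le_rfl hr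
  have hd : g (r⁻¹ * xt) = 1 := by
    apply hH.kill
    · intro ψ
      have h3 : π (r⁻¹ * xt) = 1 := by
        rw [map_mul, map_inv, hrx, inv_mul_cancel]
      have h4 : ρ (r⁻¹ * xt) = 1 := congrArg Subtype.val h3
      exact congrFun h4 ψ
    · exact mul_mem (inv_mem hr2) hxt
  rw [map_mul, map_inv, hr1, hgx] at hd
  simpa using hd

theorem zp_of_inVar {F : Type} [Group F] [Finite F] (hF : AbSylow F) {G : Type} [Group G]
    (hG : InVar (F × Multiplicative ℤ) G) : ZP G := by
  intro K x hx hc
  rw [← Subgroup.map_subtype_commutator] at hx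
  obtain ⟨y, hy, rfl⟩ := hx
  have h := central_of_inVar hF (hG.subgroup K) hy (by
    intro k
    apply Subtype.ext
    exact hc k k.2)
  rw [h]
  rfl

end Pool.Agent.helper80.RSV
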